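import Pool.Agent.Lib.MP_fa837f_gt.TS.Iface

/-!
PLA1: partial derivatives of the area of a symmetric polygon.
-/

set_option autoImplicit false

open MeasureTheory Set Filter Topology

open scoped Pointwise

namespace Pool.Agent.Lib.MP_fa837f_gt.TS.H22

/-- Differentiability from continuous partial derivatives. -/
theorem hasFDerivAt_of_partial {ι : Type} [Fintype ι] [DecidableEq ι] (F : (ι → ℝ) → ℝ)
    (D : ι → (ι → ℝ) → ℝ) (U : Set (ι → ℝ)) (hU : IsOpen U) (hD : ∀ i, Continuous (D i))
    (hF : ∀ i, ∀ y ∈ U, HasDerivAt (fun t => F (Function.update y i t)) (D i y) (y i))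
    (h : ι → ℝ) (hh : h ∈ U) :
    HasFDerivAt F (∑ i, D i h • (ContinuousLinearMap.proj i : (ι → ℝ) →L[ℝ] ℝ)) h := by
  rw [hasFDerivAt_iff_isLittleO, Asymptotics.isLittleO_iff]
  intro c hc
  set ε : ℝ := c / (Fintype.card ι + 1) with hε
  have hcard : (0 : ℝ) < (Fintype.card ι : ℝ) + 1 := by positivity
  have hεpos : 0 < ε := div_pos hc hcard
  have h1 : ∀ᶠ y in 𝓝 h, y ∈ U ∧ ∀ i, |D i y - D i h| ≤ ε := by
    have h3 : ∀ᶠ y in 𝓝 h, ∀ i, |D i y - D i h| ≤ ε := by
      refine eventually_all.2 fun i => ?_
      have h2 := (Metric.tendsto_nhds.1 ((hD i).tendsto h)) ε hεpos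
      filter_upwards [h2] with y hy
      rw [Real.dist_eq] at hy
      exact hy.le
    filter_upwards [hU.mem_nhds hh, h3] with y hy1 hy2
    exact ⟨hy1, hy2⟩
  obtain ⟨δ, hδ, hball⟩ := Metric.eventually_nhds_iff_ball.1 h1
  filter_upwards [Metric.ball_mem_nhds h hδ] with x hx
  have hxj : ∀ j, |x j - h j| < δ := by
    intro j
    have := (dist_pi_lt_iff hδ).1 (Metric.mem_ball.1 hx) j
    rwa [Real.dist_eq] at this
  have key : ∀ s : Finset ι, |F (s.piecewise x h) - F h - ∑ i ∈ s, D i h * (x i - h i)| ≤
      ε * ∑ i ∈ s, |x i - h i| := by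
    intro s
    induction s using Finset.induction_on with
    | empty => simp
    | insert a s ha ih =>
      set y := s.piecewise x h with hy
      have hya : y a = h a := by simp [hy, ha]
      rw [Finset.piecewise_insert, ← hy, Finset.sum_insert ha, Finset.sum_insert ha]
      have hmem : ∀ t ∈ uIcc (h a) (x a), Function.update y a t ∈ Metric.ball h δ := by
        intro t ht
        rw [Metric.mem_ball, dist_pi_lt_iff hδ]
        intro j
        rw [Real.dist_eq]
        by_cases hj : j = a
        · subst hj
          rw [Function.update_self]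
          exact (abs_sub_left_of_mem_uIcc ht).trans_lt (hxj j)
        · rw [Function.update_of_ne hj]
          by_cases hjs : j ∈ s
          · simp only [hy, Finset.piecewise_eq_of_mem _ _ _ hjs]
            exact hxj j
          · simp only [hy, Finset.piecewise_eq_of_notMem _ _ _ hjs]
            simpa using hδ
      have hmv : ‖(F (Function.update y a (x a)) - x a * D a h) -
          (F (Function.update y a (h a)) - h a * D a h)‖ ≤ ε * ‖x a - h a‖ := by
        refine Convex.norm_image_sub_le_of_norm_hasDerivWithin_le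
          (f := fun t => F (Function.update y a t) - t * D a h)
          (f' := fun t => D a (Function.update y a t) - D a h) (s := uIcc (h a) (x a))
          (fun t ht => ?_) (fun t ht => ?_) (convex_uIcc _ _) left_mem_uIcc right_mem_uIcc
        · have h3 := hF a _ (hball _ (hmem t ht)).1
          simp only [Function.update_idem, Function.update_self] at h3
          have h4 : HasDerivAt (fun t : ℝ => t * D a h) (D a h) t := by
            simpa using (hasDerivAt_id t).mul_const (D a h)
          exact (h3.sub h4).hasDerivWithinAt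
        · rw [Real.norm_eq_abs]
          exact (hball _ (hmem t ht)).2 a
      have hupd : Function.update y a (h a) = y := by
        rw [← hya]; exact Function.update_eq_self a y
      rw [hupd, Real.norm_eq_abs, Real.norm_eq_abs] at hmv
      have h5 : F (Function.update y a (x a)) - F h -
          (D a h * (x a - h a) + ∑ i ∈ s, D i h * (x i - h i)) =
          ((F (Function.update y a (x a)) - x a * D a h) - (F y - h a * D a h)) +
          (F y - F h - ∑ i ∈ s, D i h * (x i - h i)) := by ring
      rw [h5, mul_add]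
      exact (abs_add_le _ _).trans (add_le_add hmv ih)
  have h6 := key Finset.univ
  rw [Finset.piecewise_univ] at h6
  have h7 : (∑ i, D i h • (ContinuousLinearMap.proj i : (ι → ℝ) →L[ℝ] ℝ)) (x - h) =
      ∑ i, D i h * (x i - h i) := by
    simp
  rw [h7, Real.norm_eq_abs]
  refine h6.trans ?_
  have h8 : ∑ i, |x i - h i| ≤ (Fintype.card ι : ℝ) * ‖x - h‖ := by
    have : ∑ i, |x i - h i| ≤ ∑ _i : ι, ‖x - h‖ := by
      refine Finset.sum_le_sum fun i _ => ?_
      have := norm_le_pi_norm (x - h) i
      simpa [Real.norm_eq_abs] using this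
    simpa using this
  calc ε * ∑ i, |x i - h i| ≤ ε * ((Fintype.card ι : ℝ) * ‖x - h‖) :=
        mul_le_mul_of_nonneg_left h8 hεpos.le
    _ ≤ ε * (((Fintype.card ι : ℝ) + 1) * ‖x - h‖) := by
        refine mul_le_mul_of_nonneg_left ?_ hεpos.le
        exact mul_le_mul_of_nonneg_right (by linarith) (norm_nonneg _)
    _ = c * ‖x - h‖ := by rw [hε]; field_simp

/-- Homogeneity of the area. -/
theorem area_smul {ι : Type} (v w h : ι → ℝ) {c : ℝ} (hc : 0 < c) :
    area v w (fun j => c * h j) = c ^ 2 * area v w h := by
  have hset : {y : ℝ × ℝ | ∀ i, |v i * y.1 + w i * y.2| ≤ c * h i} =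
      c • {y : ℝ × ℝ | ∀ i, |v i * y.1 + w i * y.2| ≤ h i} := by
    ext y
    rw [Set.mem_smul_set_iff_inv_smul_mem₀ hc.ne']
    simp only [Set.mem_ofPred_eq, Prod.smul_fst, Prod.smul_snd, smul_eq_mul]
    refine forall_congr' fun i => ?_
    have h1 : v i * (c⁻¹ * y.1) + w i * (c⁻¹ * y.2) = c⁻¹ * (v i * y.1 + w i * y.2) := by ring
    rw [h1, abs_mul, abs_of_pos (inv_pos.2 hc), inv_mul_le_iff₀ hc]
  unfold area
  rw [hset, Measure.addHaar_smul, ENNReal.toReal_mul]
  congr 1
  rw [Module.finrank_prod, Module.finrank_self]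
  rw [ENNReal.toReal_ofReal (abs_nonneg _), abs_of_pos (pow_pos hc _)]

/-- PLA1. -/
theorem pla1 (h0 : Pla0Statement) : Pla1Statement := by
  classical
  intro ι _ v w hvw
  choose g gc gconc geven gind gpos garea using h0 ι v w hvw
  set D : ι → (ι → ℝ) → ℝ := fun i h => 2 * max 0 (g i (h i) h) with hDdef
  have hgz : ∀ (i : ι) (h : ι → ℝ), Continuous fun z => g i z h := by
    intro i h
    exact (gc i).comp (continuous_id.prodMk continuous_const)
  have hmz : ∀ (i : ι) (h : ι → ℝ), Continuous fun z => max 0 (g i z h) :=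
    fun i h => continuous_const.max (hgz i h)
  have hDc : ∀ i, Continuous (D i) := by
    intro i
    have h1 : Continuous ((fun q : ℝ × (ι → ℝ) => g i q.1 q.2) ∘ fun h => (h i, h)) :=
      (gc i).comp ((continuous_apply i).prodMk continuous_id)
    exact continuous_const.mul (continuous_const.max h1)
  have hUo : IsOpen {h : ι → ℝ | ∀ j, 0 < h j} := by
    have : {h : ι → ℝ | ∀ j, 0 < h j} = ⋂ j, {h : ι → ℝ | 0 < h j} := by
      ext h; simp
    rw [this]
    exact isOpen_iInter_of_finite fun j => isOpen_lt continuous_const (continuous_apply j)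
  have hpart : ∀ i, ∀ y ∈ {h : ι → ℝ | ∀ j, 0 < h j},
      HasDerivAt (fun t => area v w (Function.update y i t)) (D i y) (y i) := by
    intro i y hy
    have hyi : 0 < y i := hy i
    have h1 : HasDerivAt (fun t : ℝ => (∫ z in (0 : ℝ)..t, max 0 (g i z y)) -
        ∫ z in (0 : ℝ)..(-t), max 0 (g i z y)) (max 0 (g i (y i) y) - (max 0 (g i (-(y i)) y)) * (-1)) (y i) := by
      have h2 := (hmz i y).integral_hasStrictDerivAt 0 (y i)
      have h3 := (hmz i y).integral_hasStrictDerivAt 0 (-(y i))
      have h4 := h3.hasDerivAt.comp (y i) (hasDerivAt_neg (y i))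
      exact h2.hasDerivAt.sub h4
    have h5 : max 0 (g i (y i) y) - (max 0 (g i (-(y i)) y)) * (-1) = D i y := by
      rw [geven, hDdef]
      ring
    rw [h5] at h1
    refine h1.congr_of_eventuallyEq ?_
    filter_upwards [lt_mem_nhds hyi] with t ht
    have hpos : ∀ j, 0 < Function.update y i t j := by
      intro j
      by_cases hj : j = i
      · subst hj; simpa using ht
      · rw [Function.update_of_ne hj]; exact hy j
    rw [garea i _ hpos, Function.update_self]
    have h6 : ∀ z, g i z (Function.update y i t) = g i z y :=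
      fun z => gind i z _ _ fun j hj => Function.update_of_ne hj _ _
    simp only [h6]
    rw [intervalIntegral.integral_interval_sub_left]
    · exact (hmz i y).intervalIntegrable _ _
    · exact (hmz i y).intervalIntegrable _ _
  have hfd := hasFDerivAt_of_partial (area v w) D _ hUo hDc hpart
  have hder : ∀ h u : ι → ℝ, (∀ j, 0 < h j) → ∀ s : ℝ,
      HasDerivAt (fun x : ℝ => area v w (fun j => h j * Real.exp (x * u j)))
        (∑ i, u i * ((h i * Real.exp (s * u i)) * D i (fun j => h j * Real.exp (s * u j)))) s := by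
    intro h u hh s
    have h1 : HasDerivAt (fun x : ℝ => fun j => h j * Real.exp (x * u j))
        (fun j => h j * (Real.exp (s * u j) * u j)) s := by
      rw [hasDerivAt_pi]
      intro j
      have h2 : HasDerivAt (fun x : ℝ => x * u j) (u j) s := by
        simpa using (hasDerivAt_id s).mul_const (u j)
      exact (h2.exp).const_mul (h j)
    have h3 := (hfd (fun j => h j * Real.exp (s * u j))
      (fun j => mul_pos (hh j) (Real.exp_pos _))).comp_hasDerivAt s h1
    have h4 : ∑ i, u i * ((h i * Real.exp (s * u i)) * D i (fun j => h j * Real.exp (s * u j))) =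
        (∑ i, (D i fun j => h j * Real.exp (s * u j)) •
          (ContinuousLinearMap.proj i : (ι → ℝ) →L[ℝ] ℝ)) fun j =>
            h j * (Real.exp (s * u j) * u j) := by
      rw [ContinuousLinearMap.sum_apply]
      refine Finset.sum_congr rfl fun i _ => ?_
      rw [ContinuousLinearMap.smul_apply, ContinuousLinearMap.proj_apply, smul_eq_mul]
      ring
    rw [h4]
    exact h3
  have hareapos : ∀ h : ι → ℝ, (∀ j, 0 < h j) → 0 < area v w h := by
    intro h hh
    obtain ⟨i, j, hij⟩ := hvw.1
    rw [garea i h hh]
    refine intervalIntegral.integral_pos (by linarith [hh i]) (hmz i h).continuousOn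
      (fun z _ => le_max_left _ _) ⟨0, ⟨by linarith [hh i], (hh i).le⟩, ?_⟩
    exact lt_max_of_lt_right (gpos i h hh)
  refine ⟨fun i h => h i * D i h, ?_, ?_, ?_, hder, ?_⟩
  · intro i h hh
    exact mul_nonneg (hh i).le (mul_nonneg (by norm_num) (le_max_left _ _))
  · intro i
    exact ((continuous_apply i).mul (hDc i)).continuousOn
  · intro h hh
    refine ⟨hareapos h hh, ?_⟩
    have h1 := hder h (fun _ => 1) hh 0
    have h2 : HasDerivAt (fun x : ℝ => area v w (fun j => h j * Real.exp (x * 1)))
        (2 * area v w h) 0 := by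
      have h3 : (fun x : ℝ => area v w (fun j => h j * Real.exp (x * 1))) =
          fun x => Real.exp (2 * x) * area v w h := by
        funext x
        have h4 : (fun j => h j * Real.exp (x * 1)) = fun j => Real.exp x * h j := by
          funext j; rw [mul_one, mul_comm]
        rw [h4, area_smul v w h (Real.exp_pos x), ← Real.exp_nat_mul]
        norm_num
      rw [h3]
      have h5 : HasDerivAt (fun x : ℝ => 2 * x) 2 0 := by
        simpa using (hasDerivAt_id (0 : ℝ)).const_mul 2
      have h6 := (h5.exp).mul_const (area v w h)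
      simpa using h6
    have h7 := h1.unique h2
    simpa using h7
  · intro i h hh hS
    have hgp : 0 < g i (h i) h := by
      by_contra hcon
      push Not at hcon
      have : D i h = 0 := by
        simp only [hDdef]
        rw [max_eq_left hcon, mul_zero]
      simp only [this, mul_zero, lt_irrefl] at hS
    have hev : ∀ᶠ y in 𝓝 h, (∀ j, 0 < y j) ∧ 0 < g i (h i) y := by
      have hc : Continuous ((fun q : ℝ × (ι → ℝ) => g i q.1 q.2) ∘ fun y => (h i, y)) :=
        (gc i).comp (continuous_const.prodMk continuous_id)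
      have hc2 : ∀ᶠ y in 𝓝 h, 0 < g i (h i) y :=
        hc.continuousAt.eventually (lt_mem_nhds (a := (0 : ℝ)) (b := g i (h i) h) hgp)
      filter_upwards [hUo.mem_nhds hh, hc2] with y hy1 hy2
      exact ⟨hy1, hy2⟩
    obtain ⟨δ, hδ, hball⟩ := Metric.eventually_nhds_iff_ball.1 hev
    refine ⟨δ, hδ, fun h₁ h₂ hh1 hh2 hi1 hi2 => ?_⟩
    have hb : ∀ y : ι → ℝ, (∀ j, |y j - h j| < δ) → y i = h i →
        area v w y = ∫ z in (-(h i))..(h i), g i z y := by
      intro y hy hyi
      have hyb : y ∈ Metric.ball h δ := by
        rw [Metric.mem_ball, dist_pi_lt_iff hδ]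
        intro j
        rw [Real.dist_eq]
        exact hy j
      obtain ⟨hyp, hgy⟩ := hball y hyb
      rw [garea i y hyp, hyi]
      refine intervalIntegral.integral_congr fun z hz => ?_
      have hhi : 0 < h i := hh i
      rw [uIcc_of_le (by linarith)] at hz
      -- `z` is between `-h i` and `h i`
      have h1 : 0 < g i z y := by
        have ha0 : 0 ≤ (h i - z) / (2 * h i) := div_nonneg (by linarith [hz.2]) (by linarith)
        have hb0 : 0 ≤ (h i + z) / (2 * h i) := div_nonneg (by linarith [hz.1]) (by linarith)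
        have hab : (h i - z) / (2 * h i) + (h i + z) / (2 * h i) = 1 := by field_simp; ring
        have hcv := (gconc i).2 (mem_univ ((-(h i) : ℝ), y)) (mem_univ ((h i : ℝ), y))
          ha0 hb0 hab
        simp only [geven, smul_eq_mul, Prod.smul_mk, Prod.mk_add_mk] at hcv
        have h2 : (h i - z) / (2 * h i) * (-(h i)) + (h i + z) / (2 * h i) * h i = z := by
          field_simp; ring
        have h3 : ((h i - z) / (2 * h i)) • y + ((h i + z) / (2 * h i)) • y = y := by
          rw [← add_smul]
          have : (h i - z) / (2 * h i) + (h i + z) / (2 * h i) = 1 := by field_simp; ring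
          rw [this, one_smul]
        rw [h2, h3, ← add_mul] at hcv
        have : (h i - z) / (2 * h i) + (h i + z) / (2 * h i) = 1 := by field_simp; ring
        rw [this, one_mul] at hcv
        exact hgy.trans_le hcv
      exact max_eq_right h1.le
    have hm : ∀ j, |(h₁ j + h₂ j) / 2 - h j| < δ := by
      intro j
      have h1 := hh1 j
      have h2 := hh2 j
      rw [abs_lt] at h1 h2 ⊢
      constructor <;> linarith [h1.1, h1.2, h2.1, h2.2]
    rw [hb h₁ hh1 hi1, hb h₂ hh2 hi2, hb _ hm (by simp only [hi1, hi2]; ring)]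
    rw [← intervalIntegral.integral_add ((hgz i h₁).intervalIntegrable _ _)
      ((hgz i h₂).intervalIntegrable _ _), ← intervalIntegral.integral_const_mul]
    refine intervalIntegral.integral_mono_on (by linarith [hh i])
      (((hgz i h₁).add (hgz i h₂)).intervalIntegrable _ _)
      ((continuous_const.mul (hgz i _)).intervalIntegrable _ _) fun z _ => ?_
    have hcv := (gconc i).2 (mem_univ (z, h₁)) (mem_univ (z, h₂))
      (show (0 : ℝ) ≤ 1 / 2 by norm_num) (show (0 : ℝ) ≤ 1 / 2 by norm_num)
      (show (1 / 2 : ℝ) + 1 / 2 = 1 by norm_num)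
    simp only [smul_eq_mul, Prod.smul_mk, Prod.mk_add_mk] at hcv
    have h1 : (1 / 2 : ℝ) * z + 1 / 2 * z = z := by ring
    have h2 : (1 / 2 : ℝ) • h₁ + (1 / 2 : ℝ) • h₂ = fun j => (h₁ j + h₂ j) / 2 := by
      funext j
      simp only [Pi.add_apply, Pi.smul_apply, smul_eq_mul]
      ring
    rw [h1, h2] at hcv
    linarith

end Pool.Agent.Lib.MP_fa837f_gt.TS.H22
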